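import Pool.Agent.H572R4.QB.Units

/-!
# Quasi-polynomial Aaronson-Ambainis inequality for homogeneous functions
-/

set_option autoImplicit false

namespace Pool.Agent.Results.MP_9e8696_an.QuasiPolynomial

/-- Fourier coefficient. -/
noncomputable def coef {n : ℕ} (f : (Fin n → ℤˣ) → ℝ) (S : Finset (Fin n)) : ℝ :=
  (∑ x : Fin n → ℤˣ, f x * ∏ i ∈ S, ((x i : ℤ) : ℝ)) / (2 : ℝ) ^ n

/-- Variance. -/
noncomputable def Var {n : ℕ} (f : (Fin n → ℤˣ) → ℝ) : ℝ :=
  (∑ x : Fin n → ℤˣ, f x ^ 2) / (2 : ℝ) ^ n - ((∑ x : Fin n → ℤˣ, f x) / (2 : ℝ) ^ n) ^ 2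

/-- The influence `‖D_j f‖₂²`. -/
noncomputable def Inf {n : ℕ} (f : (Fin n → ℤˣ) → ℝ) (j : Fin n) : ℝ :=
  (∑ x : Fin n → ℤˣ, ((f (Function.update x j 1) - f (Function.update x j (-1))) / 2) ^ 2)
    / (2 : ℝ) ^ n

/-- The sup norm. -/
noncomputable def supNorm {n : ℕ} (f : (Fin n → ℤˣ) → ℝ) : ℝ := ⨆ x, |f x|

theorem result :
    ∃ C : ℝ, 0 < C ∧ ∀ (n d : ℕ), 1 ≤ n → 1 ≤ d → ∀ f : (Fin n → ℤˣ) → ℝ,
      (∀ S : Finset (Fin n), S.card ≠ d → coef f S = 0) → 0 < Var f →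
      -- the form of Q1
      ((∀ x, |f x| ≤ 1) →
        ∃ j, (Var f / (4 * d)) ^ (C * Real.log (2 * d)) ≤ Inf f j) ∧
      -- the form of Q2
      ∃ j, supNorm f * (Var f / (4 * d * supNorm f ^ 2)) ^ (C * Real.log (2 * d))
        ≤ Real.sqrt (Inf f j) := by
  obtain ⟨C, hC, h⟩ := Pool.Agent.H572R4.QA.main04
  have hl2 : 0 < Real.log 2 := Real.log_pos (by norm_num)
  refine ⟨max (2 * C) (1 / Real.log 2), lt_of_lt_of_le (by positivity) (le_max_left _ _), ?_⟩
  intro n d hn hd f hhom hV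
  have hdeg : ∀ S : Finset (Fin n), d < S.card →
      ∑ x : Fin n → ℤˣ, f x * ∏ i ∈ S, ((x i : ℤ) : ℝ) = 0 := by
    intro S hS
    have h1 := hhom S (by omega)
    unfold coef at h1
    rw [div_eq_zero_iff] at h1
    rcases h1 with h1 | h1
    · exact h1
    · exact absurd h1 (by positivity)
  have h0 := h n f d hd hdeg hV
  have hd1 : (1:ℝ) ≤ d := by exact_mod_cast hd
  haveI : Nonempty (Fin n) := ⟨⟨0, hn⟩⟩
  -- a coordinate attaining the maximum
  obtain ⟨j, hj⟩ := Finite.exists_max (fun j => Real.sqrt (Inf f j))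
  have hsup : (⨆ j : Fin n, Real.sqrt (Inf f j)) ≤ Real.sqrt (Inf f j) := ciSup_le hj
  have h1 : supNorm f * (Var f / (4 * d * supNorm f ^ 2)) ^ (C * Real.log (2 * d))
      ≤ Real.sqrt (Inf f j) := h0.trans hsup
  set B : ℝ := supNorm f with hB
  have hle : ∀ x, |f x| ≤ B := fun x =>
    le_ciSup (f := fun x : Fin n → ℤˣ => |f x|) (Set.finite_range _).bddAbove x
  have hB0 : 0 < B := by
    by_contra hcon
    push Not at hcon
    have hz : ∀ x, f x = 0 := fun x => by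
      have := hle x
      have h2 := abs_nonneg (f x)
      exact abs_eq_zero.1 (by linarith)
    simp [Var, hz] at hV
  -- the variance is at most the square of the sup norm
  have hVB : Var f ≤ B ^ 2 := by
    unfold Var
    have h2 : (∑ x : Fin n → ℤˣ, f x ^ 2) / (2 : ℝ) ^ n ≤ B ^ 2 := by
      rw [div_le_iff₀ (by positivity)]
      calc ∑ x : Fin n → ℤˣ, f x ^ 2 ≤ ∑ _x : Fin n → ℤˣ, B ^ 2 := by
            refine Finset.sum_le_sum fun x _ => ?_
            rw [← sq_abs]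
            exact pow_le_pow_left₀ (abs_nonneg _) (hle x) 2
        _ = B ^ 2 * 2 ^ n := by
            rw [Finset.sum_const, nsmul_eq_mul, Finset.card_univ, Fintype.card_fun]
            simp [mul_comm]
    have h3 : 0 ≤ ((∑ x : Fin n → ℤˣ, f x) / (2 : ℝ) ^ n) ^ 2 := sq_nonneg _
    linarith
  have hq : 0 < Var f / (4 * d * B ^ 2) := by positivity
  have hq1 : Var f / (4 * d * B ^ 2) ≤ 1 := by
    rw [div_le_one (by positivity)]
    nlinarith [sq_nonneg B]
  have hL : Real.log 2 ≤ Real.log (2 * d) := Real.log_le_log (by norm_num) (by linarith)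
  have hL0 : 0 < Real.log (2 * d) := lt_of_lt_of_le hl2 hL
  have hC1 : C * Real.log (2 * d) ≤ max (2 * C) (1 / Real.log 2) * Real.log (2 * d) := by
    have : C ≤ max (2 * C) (1 / Real.log 2) := le_trans (by linarith) (le_max_left _ _)
    exact mul_le_mul_of_nonneg_right this hL0.le
  refine ⟨fun hf1 => ⟨j, ?_⟩, ⟨j, ?_⟩⟩
  · have hB1 : B ≤ 1 := ciSup_le hf1
    have hI0 : 0 ≤ Inf f j := by
      unfold Inf
      exact div_nonneg (Finset.sum_nonneg fun x _ => sq_nonneg _) (by positivity)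
    set E : ℝ := C * Real.log (2 * d) with hE
    have hE0 : 0 < E := by positivity
    set E' : ℝ := max (2 * C) (1 / Real.log 2) * Real.log (2 * d) with hE'
    have hE2 : 2 * E ≤ E' := by
      have : 2 * C * Real.log (2 * d) ≤ E' :=
        mul_le_mul_of_nonneg_right (le_max_left _ _) hL0.le
      rw [hE]; linarith
    have hE1 : 1 ≤ E' := by
      have h2 : 1 / Real.log 2 * Real.log (2 * d) ≤ E' :=
        mul_le_mul_of_nonneg_right (le_max_right _ _) hL0.le
      have h3 : 1 ≤ 1 / Real.log 2 * Real.log (2 * d) := by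
        rw [one_div, inv_mul_eq_div, one_le_div hl2]; exact hL
      linarith
    -- square of h1
    have h2 : (B * (Var f / (4 * d * B ^ 2)) ^ E) ^ 2 ≤ Inf f j := by
      rw [← Real.sq_sqrt hI0]
      exact pow_le_pow_left₀ (by positivity) h1 2
    refine le_trans ?_ h2
    have h3 : (B * (Var f / (4 * d * B ^ 2)) ^ E) ^ 2
        = B ^ 2 * (Var f / (4 * d * B ^ 2)) ^ (2 * E) := by
      rw [mul_pow, ← Real.rpow_natCast ((Var f / (4 * d * B ^ 2)) ^ E) 2, ← Real.rpow_mul hq.le]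
      congr 2
      push_cast; ring
    rw [h3]
    have h4 : (Var f / (4 * d * B ^ 2)) ^ E' ≤ (Var f / (4 * d * B ^ 2)) ^ (2 * E) :=
      Real.rpow_le_rpow_of_exponent_ge hq hq1 hE2
    have h5 : (Var f / (4 * d)) ^ E' ≤ B ^ 2 * (Var f / (4 * d * B ^ 2)) ^ E' := by
      have e1 : Var f / (4 * d) = B ^ 2 * (Var f / (4 * d * B ^ 2)) := by
        field_simp
      rw [e1, Real.mul_rpow (by positivity) hq.le]
      have e2 : (B ^ 2) ^ E' ≤ B ^ 2 := by
        calc (B ^ 2) ^ E' ≤ (B ^ 2) ^ (1 : ℝ) :=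
              Real.rpow_le_rpow_of_exponent_ge (by positivity) (pow_le_one₀ hB0.le hB1) hE1
          _ = B ^ 2 := Real.rpow_one _
      exact mul_le_mul_of_nonneg_right e2 (Real.rpow_nonneg hq.le _)
    calc (Var f / (4 * d)) ^ E' ≤ B ^ 2 * (Var f / (4 * d * B ^ 2)) ^ E' := h5
      _ ≤ _ := mul_le_mul_of_nonneg_left h4 (by positivity)
  · refine le_trans ?_ h1
    refine mul_le_mul_of_nonneg_left ?_ hB0.le
    exact Real.rpow_le_rpow_of_exponent_ge hq hq1 hC1

end Pool.Agent.Results.MP_9e8696_an.QuasiPolynomial
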